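import Pool.Agent.Helper70.KN.Goals

open MeasureTheory Set
open Pool.Agent.Helper70.KN

namespace Pool.Agent.Helper64.KN.CO

variable {N : ℕ}

lemma meas_upd (i : Fin N) : Measurable (fun q : (Fin N → ℝ) × ℝ => Function.update q.1 i q.2) := by
  apply measurable_pi_lambda
  intro j
  by_cases h : j = i
  · subst h
    simpa using measurable_snd
  · simp only [Function.update_of_ne h]
    exact (measurable_pi_apply j).comp measurable_fst

lemma meas_len (hCL : S_CL) (V : Finset (Fin N → ℕ)) (i : Fin N) : Measurable (len V i) := by
  have hs : MeasurableSet {q : (Fin N → ℝ) × ℝ | 0 ≤ q.2 ∧ Function.update q.1 i q.2 ∉ newton V} := by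
    apply MeasurableSet.inter
    · exact measurableSet_le measurable_const measurable_snd
    · exact (meas_upd i) ((hCL N V).1.isOpen_compl.measurableSet)
  exact measurable_measure_prodMk_left hs

/-- the reflection -/
noncomputable def refl (i : Fin N) (p : Fin N → ℕ) (x : Fin N → ℝ) : Fin N → ℝ :=
  fun j => (if j = i then (fun r : ℝ => r) else (fun r : ℝ => 2 * (p j : ℝ) - r)) (x j)

lemma refl_invol (i : Fin N) (p : Fin N → ℕ) (x : Fin N → ℝ) : refl i p (refl i p x) = x := by
  funext j
  unfold refl
  by_cases h : j = i
  · simp [h]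
  · simp [h]

lemma mp_refl (i : Fin N) (p : Fin N → ℕ) : MeasurePreserving (refl i p) volume volume := by
  unfold refl
  apply volume_preserving_pi
  intro j
  by_cases h : j = i
  · simp only [h, if_true]
    exact MeasurePreserving.id _
  · simp only [h, if_false]
    exact Measure.measurePreserving_sub_left volume (2 * (p j : ℝ))

def Q (i : Fin N) (p : Fin N → ℕ) : Set (Fin N → ℝ) := {x | 0 ≤ x i ∧ x i < 1} ∩ col i p

lemma Q_eq (i : Fin N) (p : Fin N → ℕ) : Q i p = Set.pi univ
    (fun j => if j = i then Ico (0 : ℝ) 1 else Ioo ((p j : ℝ) - 1 / 2) ((p j : ℝ) + 1 / 2)) := by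
  ext x
  simp only [Q, col, mem_inter_iff, mem_setOf_eq, Set.mem_pi, mem_univ, true_implies]
  constructor
  · rintro ⟨h1, h2⟩ j
    by_cases h : j = i
    · subst h
      simpa using h1
    · have := h2 j h
      rw [abs_lt] at this
      simp only [h, if_false, mem_Ioo]
      constructor <;> linarith [this.1, this.2]
  · intro h
    constructor
    · have := h i
      simpa using this
    · intro j hj
      have := h j
      simp only [hj, if_false, mem_Ioo] at this
      rw [abs_lt]
      constructor <;> linarith [this.1, this.2]

lemma vol_Q (i : Fin N) (p : Fin N → ℕ) : volume (Q i p) = 1 := by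
  rw [Q_eq, volume_pi_pi]
  apply Finset.prod_eq_one
  intro j _
  by_cases h : j = i
  · simp [h]
  · simp only [h, if_false, Real.volume_Ioo]
    rw [show (p j : ℝ) + 1 / 2 - ((p j : ℝ) - 1 / 2) = 1 by ring]
    simp

lemma meas_Q (i : Fin N) (p : Fin N → ℕ) : MeasurableSet (Q i p) := by
  rw [Q_eq]
  apply MeasurableSet.pi countable_univ
  intro j _
  by_cases h : j = i
  · simp [h]
  · simp only [h, if_false]
    exact measurableSet_Ioo

lemma Q_refl (i : Fin N) (p : Fin N → ℕ) : refl i p ⁻¹' Q i p = Q i p := by
  ext x
  simp only [Q, col, mem_preimage, mem_inter_iff, mem_setOf_eq, refl]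
  simp only [if_true]
  apply and_congr Iff.rfl
  apply forall_congr'
  intro j
  apply imp_congr Iff.rfl ∘ fun h => h
  by_cases h : j = i
  · simp [h]
  · simp only [h, if_false]
    rw [show 2 * (p j : ℝ) - x j - p j = -(x j - p j) by ring, abs_neg]

lemma meas_col (i : Fin N) (p : Fin N → ℕ) : MeasurableSet (col i p) := by
  have : col i p = ⋂ j : Fin N, ⋂ (_ : j ≠ i), {x : Fin N → ℝ | |x j - p j| < 1 / 2} := by
    ext x
    simp [col]
  rw [this]
  apply MeasurableSet.iInter
  intro j
  apply MeasurableSet.iInter
  intro _
  exact measurableSet_lt (((measurable_pi_apply j).sub measurable_const).abs) measurable_const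

theorem t (hCL : S_CL) (hBD : S_BD) (hFB : S_FB) (hLP : S_LP) : S_CO := by
  intro N V hV i p n hp hs
  set S : Set (Fin N → ℝ) := {x | 0 ≤ x ∧ x ∉ newton V} ∩ col i p with hS
  have hSm : MeasurableSet S := by
    apply MeasurableSet.inter _ (meas_col i p)
    apply MeasurableSet.inter
    · exact isClosed_Ici.measurableSet
    · exact (hCL N V).1.isOpen_compl.measurableSet
  obtain ⟨M, hM, hB⟩ := hBD N V hV
  have hfin : volume S ≠ ⊤ := by
    have hsub : S ⊆ Icc (0 : Fin N → ℝ) (fun _ => M) := by
      rintro x ⟨⟨h0, h1⟩, -⟩
      exact ⟨h0, fun j => (hB x h0 h1 j).le⟩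
    exact ((measure_mono hsub).trans_lt (isCompact_Icc.measure_lt_top)).ne
  have hlenm := meas_len hCL V i
  -- lower bound of the volume
  have h1 : ∫⁻ x in Q i p, len V i x ≤ volume S := by
    rw [hFB N S i hSm]
    calc ∫⁻ x in Q i p, len V i x
        = ∫⁻ x in Q i p, volume {t : ℝ | Function.update x i t ∈ S} := by
          apply setLIntegral_congr_fun (meas_Q i p)
          intro x hx
          unfold len
          congr 1
          ext t
          simp only [mem_setOf_eq, hS, mem_inter_iff]
          have hx2 := hx.2
          constructor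
          · rintro ⟨ht, hn⟩
            refine ⟨⟨?_, hn⟩, ?_⟩
            · intro j
              by_cases h : j = i
              · subst h; simpa using ht
              · rw [Function.update_of_ne h]
                have := hx2 j h
                rw [abs_lt] at this
                have hpj : (1 : ℝ) ≤ p j := by exact_mod_cast hp j h
                simp only [Pi.zero_apply]
                linarith [this.1]
            · intro j h
              rw [Function.update_of_ne h]
              exact hx2 j h
          · rintro ⟨⟨h0, hn⟩, -⟩
            refine ⟨?_, hn⟩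
            have := h0 i
            simpa using this
      _ ≤ _ := lintegral_mono_set (fun x hx => hx.1)
  have h2 : ∫⁻ x in Q i p, len V i (refl i p x) = ∫⁻ x in Q i p, len V i x := by
    have := (mp_refl i p).setLIntegral_comp_preimage (meas_Q i p) hlenm
    rw [Q_refl] at this
    exact this
  have h3 : 2 * (n : ENNReal) ≤ ∫⁻ x in Q i p, (len V i x + len V i (refl i p x)) := by
    calc 2 * (n : ENNReal) = ∫⁻ _x in Q i p, 2 * (n : ENNReal) := by
          rw [setLIntegral_const, vol_Q, mul_one]
      _ ≤ _ := by
          apply setLIntegral_mono_ae' (meas_Q i p)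
          filter_upwards with x hx
          apply hLP N V i x (refl i p x) (fun j => (p j : ℝ)) n
          · intro j hj
            simp only [refl, hj, if_false]
            ring
          · exact hs
  rw [lintegral_add_left hlenm, h2, ← two_mul] at h3
  have h4 : 2 * (n : ENNReal) ≤ 2 * volume S := h3.trans (by gcongr)
  have h5 : (n : ENNReal) ≤ volume S := by
    rwa [ENNReal.mul_le_mul_iff_right (by norm_num) (by norm_num)] at h4
  have := ENNReal.toReal_mono hfin h5
  simpa using this

end Pool.Agent.Helper64.KN.CO
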